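import Pool.Agent.Helper92.TW.T9

/-!
# TOWERS, Q3: the new ring of the projective step is a domain and contains the base
-/

set_option autoImplicit false

namespace Pool.Agent.Helper92.TW

open NumberField Pool.Agent.Helper4.CB
open Pool.Agent.Helper65.TW

/-- the base injects into the cone -/
theorem proj_injective {R S : Type} [CommRing R] [CommRing S] [Algebra R S]
    (hinj : Function.Injective (algebraMap R S)) {N : ℕ} (I : Ideal (MvPolynomial (Fin N) R))
    (hI1 : I ≠ ⊤)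
    (hψ : ∀ f : MvPolynomial (Fin N) R ⧸ I, f ≠ 0 →
      ∃ ψ : (MvPolynomial (Fin N) R ⧸ I) →ₐ[R] S, ψ f ≠ 0 ∧
        ∃ k, ψ (Ideal.Quotient.mk I (MvPolynomial.X k)) ≠ 0) :
    Function.Injective (algebraMap R (MvPolynomial (Fin N) R ⧸ I)) := by
  have h1 : (1 : MvPolynomial (Fin N) R ⧸ I) ≠ 0 := by
    have := Ideal.Quotient.nontrivial_iff.2 hI1
    exact one_ne_zero
  obtain ⟨ψ, -, -⟩ := hψ 1 h1
  intro a b hab
  apply hinj
  rw [← ψ.commutes a, ← ψ.commutes b, hab]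

/-- **Q3** the projective step for `SU`, with the domain property and the injectivity -/
theorem su_proj_full {K R S : Type} [Field K] [NumberField K] [CommRing R]
    [Algebra K R] [Algebra.FiniteType K R] [CommRing S] [IsDomain S] [Algebra K S] [Algebra R S]
    [IsScalarTower K R S] (hinj : Function.Injective (algebraMap R S)) {tS : Ideal S}
    (h : SU K S tS) (t : Ideal R) (s : ℕ) (ht : tS ^ s ≤ t.map (algebraMap R S)) {N : ℕ}
    (I : Ideal (MvPolynomial (Fin N) R)) [I.IsPrime]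
    (hI : ∀ f ∈ I, ∀ d : ℕ, MvPolynomial.homogeneousComponent d f ∈ I)
    (hψ : ∀ f : MvPolynomial (Fin N) R ⧸ I, f ≠ 0 →
      ∃ ψ : (MvPolynomial (Fin N) R ⧸ I) →ₐ[R] S, ψ f ≠ 0 ∧
        ∃ k, ψ (Ideal.Quotient.mk I (MvPolynomial.X k)) ≠ 0) :
    SU K (MvPolynomial (Fin N) R ⧸ I) (t.map (algebraMap R (MvPolynomial (Fin N) R ⧸ I)) *
      Ideal.span (Set.range fun k => Ideal.Quotient.mk I (MvPolynomial.X k))) ∧
    IsDomain (MvPolynomial (Fin N) R ⧸ I) ∧
    Algebra.FiniteType K (MvPolynomial (Fin N) R ⧸ I) ∧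
    Function.Injective (algebraMap R (MvPolynomial (Fin N) R ⧸ I)) := by
  refine ⟨?_, inferInstance, ?_, proj_injective hinj I (Ideal.IsPrime.ne_top inferInstance) hψ⟩
  · intro Λ hΛ M0 _ _ _
    obtain ⟨M, i1, i2, i3, i4, i5, hM⟩ := h Λ hΛ M0
    exact ⟨M, i1, i2, i3, i4, i5, su_proj' hΛ hM t s ht I hI hψ⟩
  · have h1 : Algebra.FiniteType R (MvPolynomial (Fin N) R ⧸ I) := inferInstance
    exact Algebra.FiniteType.trans (inferInstance : Algebra.FiniteType K R) h1

/-- the vertex ideal of the new variety is not zero -/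
theorem proj_ne_bot {R S : Type} [CommRing R] [CommRing S] [Algebra R S]
    (hinj : Function.Injective (algebraMap R S)) {N : ℕ} (I : Ideal (MvPolynomial (Fin N) R))
    [I.IsPrime] {t : Ideal R} (ht : t ≠ ⊥)
    (hψ : ∀ f : MvPolynomial (Fin N) R ⧸ I, f ≠ 0 →
      ∃ ψ : (MvPolynomial (Fin N) R ⧸ I) →ₐ[R] S, ψ f ≠ 0 ∧
        ∃ k, ψ (Ideal.Quotient.mk I (MvPolynomial.X k)) ≠ 0) :
    t.map (algebraMap R (MvPolynomial (Fin N) R ⧸ I)) *
      Ideal.span (Set.range fun k => Ideal.Quotient.mk I (MvPolynomial.X k)) ≠ ⊥ := by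
  obtain ⟨a, ha, ha0⟩ := Submodule.exists_mem_ne_zero_of_ne_bot ht
  obtain ⟨ψ, -, k, hk⟩ := hψ 1 one_ne_zero
  have hi := proj_injective hinj I (Ideal.IsPrime.ne_top inferInstance) hψ
  intro h0
  have h1 : algebraMap R (MvPolynomial (Fin N) R ⧸ I) a *
      Ideal.Quotient.mk I (MvPolynomial.X k) ∈ (⊥ : Ideal (MvPolynomial (Fin N) R ⧸ I)) := by
    rw [← h0]
    exact Ideal.mul_mem_mul (Ideal.mem_map_of_mem _ ha) (Ideal.subset_span ⟨k, rfl⟩)
  rcases mul_eq_zero.1 ((Submodule.mem_bot _).1 h1) with h2 | h2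
  · exact ha0 (hi (h2.trans (map_zero _).symm))
  · exact hk (by rw [h2, map_zero])

end Pool.Agent.Helper92.TW
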