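import Pool.Agent.Helper83.RelL.Leaf

/-!
# TOWERS, projective step: scaling of the points of a cone
-/

set_option autoImplicit false

namespace Pool.Agent.Helper92.TW

open NumberField Pool.Agent.Helper4.CB MvPolynomial
open Pool.Agent.Helper69.CB (vl)

/-- the ideal contains the homogeneous components of its elements -/
def Homog {R : Type} [CommRing R] {N : ℕ} (I : Ideal (MvPolynomial (Fin N) R)) : Prop :=
  ∀ g ∈ I, ∀ d, homogeneousComponent d g ∈ I

theorem eval₂_smul_of_homogeneous {R M : Type} [CommRing R] [CommRing M] (φ : R →+* M) {N : ℕ}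
    (x : Fin N → M) (s : M) {d : ℕ} {g : MvPolynomial (Fin N) R} (hg : g.IsHomogeneous d) :
    eval₂ φ (fun i => s * x i) g = s ^ d * eval₂ φ x g := by
  rw [eval₂_eq', eval₂_eq', Finset.mul_sum]
  refine Finset.sum_congr rfl fun m hm => ?_
  have hd : m.degree = d := by
    have := hg (mem_support_iff.1 hm)
    rw [← this, Finsupp.degree_eq_weight_one]
    rfl
  have h1 : ∏ i, (s * x i) ^ m i = s ^ d * ∏ i, x i ^ m i := by
    simp only [mul_pow, Finset.prod_mul_distrib]
    rw [Finset.prod_pow_eq_pow_sum, ← hd, Finsupp.degree_eq_sum]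
  rw [h1]
  ring

theorem eval₂_smul_zero {R M : Type} [CommRing R] [CommRing M] {N : ℕ}
    {I : Ideal (MvPolynomial (Fin N) R)} (hI : Homog I) (φ : R →+* M) (x : Fin N → M)
    (hx : ∀ g ∈ I, eval₂ φ x g = 0) (s : M) : ∀ g ∈ I, eval₂ φ (fun i => s * x i) g = 0 := by
  intro g hg
  rw [← sum_homogeneousComponent g, ← coe_eval₂Hom, map_sum]
  refine Finset.sum_eq_zero fun d _ => ?_
  rw [coe_eval₂Hom, eval₂_smul_of_homogeneous φ x s (homogeneousComponent_isHomogeneous d g),
    hx _ (hI g hg d), mul_zero]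

/-- scaling: the coordinates become integral and one of them a unit at all bad places, and `f` does
not vanish at the new point -/
theorem exists_scaled {M : Type} [Field M] [NumberField M] {Λ : Finset ℕ} (hΛ : ∀ l ∈ Λ, 2 ≤ l)
    (N : ℕ) : ∃ J0 : ℕ, ∀ J, J0 ≤ J → ∀ (R : Type) [CommRing R] (φ : R →+* M) (x : Fin N → M)
      (f : MvPolynomial (Fin N) R), x ≠ 0 → eval₂ φ x f ≠ 0 →
      ∃ s : M, s ≠ 0 ∧ eval₂ φ (fun i => s * x i) f ≠ 0 ∧
        ∀ p : Pl M, Pool.Agent.Helper65.CL.Bad Λ J p →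
          (∀ i, vl p (s * x i) ≤ 1) ∧ ∃ i, vl p (s * x i) = 1 := by
  classical
  obtain ⟨J1, hJ1⟩ := Pool.Agent.Helper83.RelL.exists_scaleL M hΛ N
  obtain ⟨J2, hJ2⟩ := Pool.Agent.Helper56.CL.start M hΛ {(2 : M)} 0
  refine ⟨max J1 J2, fun J hJ R _ φ x f hx hf => ?_⟩
  obtain ⟨l, hl, hp⟩ := hJ1 J ((le_max_left _ _).trans hJ) x hx
  -- the value at a multiple of the point is a polynomial in the factor
  let P : Polynomial M := eval₂ (Polynomial.C.comp φ) (fun i => Polynomial.X * Polynomial.C (x i)) f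
  have hP : ∀ s : M, P.eval s = eval₂ φ (fun i => s * x i) f := by
    intro s
    have h1 : P.eval s = Polynomial.evalRingHom s P := rfl
    rw [h1]
    change Polynomial.evalRingHom s (eval₂ (Polynomial.C.comp φ)
      (fun i => Polynomial.X * Polynomial.C (x i)) f) = _
    rw [hom_eval₂]
    congr 1
    · ext r; simp
    · funext i
      rw [Polynomial.coe_evalRingHom, Polynomial.eval_mul, Polynomial.eval_X, Polynomial.eval_C]
  have hP0 : P ≠ 0 := by
    intro h0
    apply hf
    have := hP 1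
    rw [h0, Polynomial.eval_zero] at this
    simpa using this.symm
  obtain ⟨k, hk⟩ : ∃ k : ℕ, P.eval (l * 2 ^ k) ≠ 0 := by
    by_contra hcon
    push Not at hcon
    apply hP0
    refine Polynomial.eq_zero_of_infinite_isRoot _ ?_
    have hinj : Function.Injective (fun k : ℕ => l * (2 : M) ^ k) := by
      intro a b hab
      have h1 : (2 : M) ^ a = 2 ^ b := mul_left_cancel₀ hl hab
      have h2 : ((2 ^ a : ℕ) : M) = ((2 ^ b : ℕ) : M) := by push_cast; exact h1
      exact Nat.pow_right_injective le_rfl (Nat.cast_injective h2)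
    refine (Set.infinite_range_of_injective hinj).mono ?_
    rintro _ ⟨k, rfl⟩
    exact hcon k
  refine ⟨l * 2 ^ k, mul_ne_zero hl (pow_ne_zero _ two_ne_zero), by rwa [← hP], ?_⟩
  intro p hpB
  have h2 : vl p (2 : M) = 1 :=
    (hJ2 J ((le_max_right _ _).trans hJ) p hpB).2 2 (Finset.mem_singleton_self _) two_ne_zero
  have hval : ∀ i, vl p (l * 2 ^ k * x i) = vl p (l * x i) := by
    intro i
    rw [mul_assoc, mul_comm ((2 : M) ^ k), ← mul_assoc, map_mul, map_pow, h2, one_pow, mul_one]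
  obtain ⟨h3, i, h4⟩ := hp p hpB
  exact ⟨fun i => (hval i).trans_le (h3 i), i, (hval i).trans h4⟩

end Pool.Agent.Helper92.TW
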