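import Pool.Agent.Helper3.TW.Pid
import Pool.Agent.Helper92.TW.Core

/-!
# TOWERS: scaling of the points of a cone outside a finite set of places
-/

set_option autoImplicit false

namespace Pool.Agent.Helper92.TW

open NumberField Pool.Agent.Helper4.CB MvPolynomial IsDedekindDomain
open Pool.Agent.Helper69.CB (vl)

/-- finitely many places such that every ideal class contains an ideal prime to the other places
and `2` is a unit at the other places -/
theorem exists_places (M : Type) [Field M] [NumberField M] :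
    ∃ S : Set (Pl M), S.Finite ∧ Pool.Agent.Helper3.TW.ClOK (fun w : Pl M => w ∉ S) ∧
      ∀ w : Pl M, w ∉ S → vl w (2 : M) = 1 := by
  classical
  have hrep : ∀ c : ClassGroup (𝓞 M), ∃ I : nonZeroDivisors (Ideal (𝓞 M)),
      ClassGroup.mk0 I = c := fun c => ClassGroup.mk0_surjective c
  choose I hI using hrep
  have hfin : ∀ A : Ideal (𝓞 M), A ≠ 0 → {w : Pl M | A ≤ w.asIdeal}.Finite := by
    intro A hA
    refine (Ideal.finite_factors hA).subset ?_
    intro w hw
    exact Ideal.dvd_iff_le.2 hw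
  have h20 : (Ideal.span {(2 : 𝓞 M)} : Ideal (𝓞 M)) ≠ 0 := by
    rw [Ideal.zero_eq_bot, Ne, Ideal.span_singleton_eq_bot]
    exact two_ne_zero
  refine ⟨(⋃ c, {w : Pl M | (I c : Ideal (𝓞 M)) ≤ w.asIdeal}) ∪
    {w : Pl M | Ideal.span {(2 : 𝓞 M)} ≤ w.asIdeal}, ?_, ?_, ?_⟩
  · refine Set.Finite.union (Set.finite_iUnion fun c => hfin _ ?_) (hfin _ h20)
    exact mem_nonZeroDivisors_iff_ne_zero.1 (I c).2
  · intro c
    refine ⟨I c, hI c, fun w hw hle => hw (Or.inl (Set.mem_iUnion.2 ⟨c, hle⟩))⟩
  · intro w hw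
    have h1 : (2 : 𝓞 M) ∉ w.asIdeal := by
      intro h2
      exact hw (Or.inr (by
        change Ideal.span {(2 : 𝓞 M)} ≤ w.asIdeal
        rwa [Ideal.span_singleton_le_iff_mem]))
    have h3 : vl w ((2 : 𝓞 M) : M) = 1 := by
      refine le_antisymm (w.valuation_le_one _) ?_
      by_contra hlt
      exact h1 ((w.valuation_lt_one_iff_mem _).1 (not_le.1 hlt))
    have h4 : ((2 : 𝓞 M) : M) = 2 := map_ofNat (algebraMap (𝓞 M) M) 2
    rwa [h4] at h3

/-- a vector becomes primitive outside a finite set of places -/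
theorem exists_prim {M : Type} [Field M] [NumberField M] {S : Set (Pl M)}
    (hS : Pool.Agent.Helper3.TW.ClOK (fun w : Pl M => w ∉ S)) {N : ℕ} (x : Fin N → M)
    (hx : x ≠ 0) : ∃ l : M, l ≠ 0 ∧ ∀ p : Pl M, p ∉ S →
      (∀ i, vl p (l * x i) ≤ 1) ∧ ∃ i, vl p (l * x i) = 1 := by
  classical
  obtain ⟨⟨d, hd⟩, hdx⟩ := IsLocalization.exist_integer_multiples_of_finite
    (nonZeroDivisors (𝓞 M)) x
  have hd0 : (d : M) ≠ 0 := fun h => nonZeroDivisors.ne_zero hd (RingOfIntegers.coe_eq_zero_iff.1 h)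
  choose y hy using hdx
  have hy' : ∀ i, ((y i : 𝓞 M) : M) = (d : M) * x i := by
    intro i
    have h := hy i
    rw [Algebra.smul_def] at h
    exact h
  have hA : Ideal.span (Set.range y) ≠ ⊥ := by
    intro h0
    apply hx
    funext i
    have h1 : y i = 0 := by
      have := Ideal.subset_span (s := Set.range y) ⟨i, rfl⟩
      rwa [h0, SetLike.mem_coe, Ideal.mem_bot] at this
    have h2 := hy' i
    have h3 : ((y i : 𝓞 M) : M) = 0 := by
      rw [h1]
      exact map_zero (algebraMap (𝓞 M) M)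
    rw [h3] at h2
    exact (mul_eq_zero.1 h2.symm).resolve_left hd0
  obtain ⟨α, hα, hα0, hαv⟩ := Pool.Agent.Helper3.TW.exists_gen hS _ hA
  have hαM : (α : M) ≠ 0 := fun h => hα0 (RingOfIntegers.coe_eq_zero_iff.1 h)
  refine ⟨(d : M) / α, div_ne_zero hd0 hαM, fun p hp => ?_⟩
  have hv0 : vl p (α : M) ≠ 0 := (p.valuation M).ne_zero_iff.2 hαM
  have hval : ∀ i, vl p ((d : M) / α * x i) = vl p ((y i : 𝓞 M) : M) / vl p (α : M) := by
    intro i
    rw [hy' i, div_mul_eq_mul_div, map_div₀ (p.valuation M)]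
  have hle : ∀ i, vl p ((y i : 𝓞 M) : M) ≤ vl p (α : M) := fun i =>
    hαv p hp (y i) (Ideal.subset_span ⟨i, rfl⟩)
  refine ⟨fun i => ?_, ?_⟩
  · rw [hval i]
    exact div_le_one_of_le₀ (hle i) zero_le
  · by_contra hcon
    push Not at hcon
    have hlt : ∀ i, vl p ((y i : 𝓞 M) : M) < vl p (α : M) := by
      intro i
      refine lt_of_le_of_ne (hle i) fun h => hcon i ?_
      rw [hval i, h, div_self hv0]
    have hall : ∀ a ∈ Ideal.span (Set.range y), vl p ((a : 𝓞 M) : M) < vl p (α : M) := by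
      intro a ha
      induction ha using Submodule.span_induction with
      | mem a ha =>
        obtain ⟨i, rfl⟩ := ha
        exact hlt i
      | zero =>
        have : ((0 : 𝓞 M) : M) = 0 := map_zero _
        rw [this, map_zero]
        exact zero_lt_iff.2 hv0
      | add a b _ _ h1 h2 =>
        have : ((a + b : 𝓞 M) : M) = (a : M) + (b : M) := map_add _ a b
        rw [this]
        exact Valuation.map_add_lt _ h1 h2
      | smul r a _ h1 =>
        have : ((r • a : 𝓞 M) : M) = (r : M) * (a : M) := map_mul _ r a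
        rw [this, map_mul]
        exact (mul_le_of_le_one_left' (p.valuation_le_one r)).trans_lt h1
    exact lt_irrefl _ (hall α hα)

/-- scaling: the coordinates become integral and one of them a unit at all places outside `S`, and
`f` does not vanish at the new point -/
theorem exists_scaled_S {M : Type} [Field M] [NumberField M] {S : Set (Pl M)}
    (hS : Pool.Agent.Helper3.TW.ClOK (fun w : Pl M => w ∉ S))
    (h2 : ∀ w : Pl M, w ∉ S → vl w (2 : M) = 1) {N : ℕ} {R : Type} [CommRing R] (φ : R →+* M)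
    (x : Fin N → M) (f : MvPolynomial (Fin N) R) (hx : x ≠ 0) (hf : eval₂ φ x f ≠ 0) :
    ∃ s : M, s ≠ 0 ∧ eval₂ φ (fun i => s * x i) f ≠ 0 ∧
      ∀ p : Pl M, p ∉ S → (∀ i, vl p (s * x i) ≤ 1) ∧ ∃ i, vl p (s * x i) = 1 := by
  classical
  obtain ⟨l, hl, hp⟩ := exists_prim hS x hx
  -- the value at a multiple of the point is a polynomial in the factor
  let P : Polynomial M := eval₂ (Polynomial.C.comp φ) (fun i => Polynomial.X * Polynomial.C (x i)) f
  have hP : ∀ s : M, P.eval s = eval₂ φ (fun i => s * x i) f := by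
    intro s
    have h1 : P.eval s = Polynomial.evalRingHom s P := rfl
    rw [h1]
    change Polynomial.evalRingHom s (eval₂ (Polynomial.C.comp φ)
      (fun i => Polynomial.X * Polynomial.C (x i)) f) = _
    rw [hom_eval₂]
    congr 1
    · ext r; simp
    · funext i
      rw [Polynomial.coe_evalRingHom, Polynomial.eval_mul, Polynomial.eval_X, Polynomial.eval_C]
  have hP0 : P ≠ 0 := by
    intro h0
    apply hf
    have := hP 1
    rw [h0, Polynomial.eval_zero] at this
    simpa using this.symm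
  obtain ⟨k, hk⟩ : ∃ k : ℕ, P.eval (l * 2 ^ k) ≠ 0 := by
    by_contra hcon
    push Not at hcon
    apply hP0
    refine Polynomial.eq_zero_of_infinite_isRoot _ ?_
    have hinj : Function.Injective (fun k : ℕ => l * (2 : M) ^ k) := by
      intro a b hab
      have h1 : (2 : M) ^ a = 2 ^ b := mul_left_cancel₀ hl hab
      have h2 : ((2 ^ a : ℕ) : M) = ((2 ^ b : ℕ) : M) := by push_cast; exact h1
      exact Nat.pow_right_injective le_rfl (Nat.cast_injective h2)
    refine (Set.infinite_range_of_injective hinj).mono ?_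
    rintro _ ⟨k, rfl⟩
    exact hcon k
  refine ⟨l * 2 ^ k, mul_ne_zero hl (pow_ne_zero _ two_ne_zero), by rwa [← hP], ?_⟩
  intro p hpS
  have hval : ∀ i, vl p (l * 2 ^ k * x i) = vl p (l * x i) := by
    intro i
    rw [mul_assoc, mul_comm ((2 : M) ^ k), ← mul_assoc, map_mul, map_pow, h2 p hpS, one_pow,
      mul_one]
  obtain ⟨h3, i, h4⟩ := hp p hpS
  exact ⟨fun i => (hval i).trans_le (h3 i), i, (hval i).trans h4⟩

end Pool.Agent.Helper92.TW
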