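import Pool.Agent.Helper65.TW.Tower3
import Pool.Agent.Helper62.TW.Cone
import Pool.Agent.Helper92.TW.ScaleS

/-!
# TOWERS: the S-integral points of a potentially dense cone minus its vertex are potentially dense
-/

set_option autoImplicit false

namespace Pool.Agent.Helper92.TW

open NumberField Pool.Agent.Helper4.CB MvPolynomial
open Pool.Agent.Helper69.CB (vl)
open AlgebraicGeometry CategoryTheory Pool.Agent.Helper15

/-- **P2.** -/
theorem cone_int {K : Type} [Field K] [NumberField K] {N : ℕ} (I : Ideal (MvPolynomial (Fin N) K))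
    [I.IsPrime] (hI : ∀ f ∈ I, ∀ d : ℕ, homogeneousComponent d f ∈ I)
    (hX : ∃ k, (X k : MvPolynomial (Fin N) K) ∉ I)
    (hd : PotentiallyDense K (Spec (CommRingCat.of (MvPolynomial (Fin N) K ⧸ I)))
      (Spec.map (CommRingCat.ofHom (algebraMap K (MvPolynomial (Fin N) K ⧸ I))))) :
    Pool.Agent.Helper65.TW.IntPD K (MvPolynomial (Fin N) K ⧸ I)
      (Pool.Agent.Helper65.TW.coords I) := by
  classical
  have hdom : IsDomain (MvPolynomial (Fin N) K ⧸ I) := Ideal.Quotient.isDomain I
  obtain ⟨L, iL, aL, hfin, hL⟩ := Pool.Agent.Helper62.TW.exists_points hd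
  have nL : NumberField L := NumberField.of_module_finite K L
  obtain ⟨S, hS1, hS2, hS3⟩ := exists_places L
  obtain ⟨k0, hk0⟩ := hX
  refine ⟨L, iL, nL, aL, Finset.univ.image fun l => Ideal.Quotient.mk I (X l),
    Finset.univ.image fun l => Ideal.Quotient.mk I (X l), S, hS1, ?_, ?_, ?_⟩
  · rw [Finset.coe_image, Finset.coe_univ, Set.image_univ]
    exact Pool.Agent.Helper35.Rel.gen_quot I
  · rw [Finset.coe_image, Finset.coe_univ, Set.image_univ]
  · intro f hf
    obtain ⟨F, rfl⟩ := Ideal.Quotient.mk_surjective f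
    have h0 : Ideal.Quotient.mk I (X k0) ≠ 0 := fun h => hk0 (Ideal.Quotient.eq_zero_iff_mem.1 h)
    obtain ⟨ψ, hψ⟩ := hL (Ideal.Quotient.mk I F * Ideal.Quotient.mk I (X k0)) (mul_ne_zero hf h0)
    rw [map_mul] at hψ
    obtain ⟨x, hx⟩ : ∃ x : Fin N → L, x = fun l => ψ (Ideal.Quotient.mk I (X l)) := ⟨_, rfl⟩
    have hev : ∀ g : MvPolynomial (Fin N) K, eval₂ (algebraMap K L) x g =
        ψ (Ideal.Quotient.mk I g) := by
      intro g
      have h1 : aeval x = ψ.comp (Ideal.Quotient.mkₐ K I) := by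
        refine algHom_ext fun l => ?_
        rw [aeval_X, hx]
        rfl
      rw [← aeval_def, h1]
      rfl
    have hx0 : x ≠ 0 := by
      intro h
      apply right_ne_zero_of_mul hψ
      have := congrFun h k0
      rw [hx] at this
      exact this
    obtain ⟨s, hs0, hs1, hs2⟩ := exists_scaled_S hS2 hS3 (algebraMap K L) x F hx0
      (by rw [hev]; exact left_ne_zero_of_mul hψ)
    have hz : ∀ g ∈ I, aeval (fun i => s * x i) g = 0 := by
      intro g hg
      rw [aeval_def]
      exact eval₂_smul_zero hI (algebraMap K L) x (fun g hg => by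
        rw [hev, Ideal.Quotient.eq_zero_iff_mem.2 hg, map_zero]) s g hg
    have hφ : ∀ g : MvPolynomial (Fin N) K,
        Ideal.Quotient.liftₐ I (aeval (fun i => s * x i)) hz (Ideal.Quotient.mk I g) =
          aeval (fun i => s * x i) g := fun g => rfl
    refine ⟨Ideal.Quotient.liftₐ I (aeval (fun i => s * x i)) hz, ?_, fun p hp => ?_⟩
    · rw [hφ, aeval_def]
      exact hs1
    · obtain ⟨h3, l, h4⟩ := hs2 p hp
      refine ⟨fun g hg => ?_, _, Finset.mem_image_of_mem _ (Finset.mem_univ l), ?_⟩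
      · obtain ⟨k, -, rfl⟩ := Finset.mem_image.1 hg
        rw [hφ, aeval_X]
        exact h3 k
      · rw [hφ, aeval_X]
        exact h4

end Pool.Agent.Helper92.TW
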