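import Pool.Agent.Helper92.TW.Pull

/-!
# TOWERS: domination (d) and the projective step (e)
-/

set_option autoImplicit false

namespace Pool.Agent.Helper92.TW

open NumberField Pool.Agent.Helper4.CB
open Pool.Agent.Helper65.CL (Bad)
open Pool.Agent.Helper69.CB (vl)
open Pool.Agent.Helper65.TW

/-- **(d), one field** -/
theorem sum_dom {K M : Type} [Field K] [Field M] [NumberField M] [Algebra K M] {Λ : Finset ℕ}
    (hΛ : ∀ l ∈ Λ, 2 ≤ l) {R R₂ : Type} [CommRing R] [Algebra K R] [CommRing R₂] [Algebra K R₂]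
    (j : R →ₐ[K] R₂) (hj : Function.Injective j) {t₂ : Ideal R₂} (h : SUM K M R₂ Λ t₂)
    (hR : Algebra.FiniteType K R) {t : Ideal R} (ht : t.FG) (hs : t₂ ≤ (t.map j).radical) :
    SUM K M R Λ t := by
  obtain ⟨G, τ, J, hG, hτ, hp⟩ := pull hΛ j h hR ht hs
  refine ⟨G, τ, J, hG, hτ, fun f hf => ?_⟩
  obtain ⟨φ, hφ, hp'⟩ := hp J le_rfl (j f) (fun h0 => hf (hj (h0.trans (map_zero j).symm)))
  exact ⟨φ.comp j, hφ, hp'⟩

/-- **(d)** domination: if `R ⊆ R₂` and every point of `Spec R₂` outside `t₂` lies over a point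
outside `t`, then sieve points of `(R₂, t₂)` give sieve points of `(R, t)` -/
theorem su_dom {K : Type} [Field K] [NumberField K] {R R₂ : Type} [CommRing R] [Algebra K R]
    [CommRing R₂] [Algebra K R₂] (j : R →ₐ[K] R₂) (hj : Function.Injective j) {t₂ : Ideal R₂}
    (h : SU K R₂ t₂) (hR : Algebra.FiniteType K R) {t : Ideal R} (ht : t.FG)
    (hs : t₂ ≤ (t.map j).radical) : SU K R t := by
  intro Λ hΛ M0 _ _ _
  obtain ⟨M, i1, i2, i3, i4, i5, hM⟩ := h Λ hΛ M0
  exact ⟨M, i1, i2, i3, i4, i5, sum_dom (fun l hl => (hΛ l hl).two_le) j hj hM hR ht hs⟩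

section Proj

open MvPolynomial

variable {K : Type} [Field K] {R : Type} [CommRing R] [Algebra K R] {N : ℕ}
  (I : Ideal (MvPolynomial (Fin N) R))

/-- the coordinates of the cone -/
noncomputable def crd (i : Fin N) : MvPolynomial (Fin N) R ⧸ I := Ideal.Quotient.mk I (X i)

/-- the points where `t` and the ideal of the vertex are not contained -/
noncomputable def coneIdeal (t : Ideal R) : Ideal (MvPolynomial (Fin N) R ⧸ I) :=
  t.map (algebraMap R (MvPolynomial (Fin N) R ⧸ I)) * Ideal.span (Set.range (crd I))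

theorem adjoin_cone (G : Finset R) (hG : Algebra.adjoin K (G : Set R) = ⊤) [DecidableEq
    (MvPolynomial (Fin N) R ⧸ I)] :
    Algebra.adjoin K ((G.image (algebraMap R (MvPolynomial (Fin N) R ⧸ I)) ∪
      Finset.univ.image (crd I) : Finset (MvPolynomial (Fin N) R ⧸ I)) :
        Set (MvPolynomial (Fin N) R ⧸ I)) = ⊤ := by
  rw [eq_top_iff]
  rintro z -
  obtain ⟨p, rfl⟩ := Ideal.Quotient.mk_surjective z
  induction p using MvPolynomial.induction_on with
  | C r =>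
    have hr : r ∈ Algebra.adjoin K (G : Set R) := by rw [hG]; exact Algebra.mem_top
    have h1 : algebraMap R (MvPolynomial (Fin N) R ⧸ I) r ∈ (Algebra.adjoin K (G : Set R)).map
        (IsScalarTower.toAlgHom K R (MvPolynomial (Fin N) R ⧸ I)) := ⟨r, hr, rfl⟩
    rw [AlgHom.map_adjoin] at h1
    refine Algebra.adjoin_mono ?_ h1
    rintro _ ⟨g, hg, rfl⟩
    rw [Finset.coe_union]
    exact Or.inl (Finset.mem_coe.2 (Finset.mem_image_of_mem _ hg))
  | add p q hp hq => rw [map_add]; exact add_mem hp hq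
  | mul_X p i hp =>
    rw [map_mul]
    refine mul_mem hp (Algebra.subset_adjoin ?_)
    rw [Finset.coe_union]
    exact Or.inr (Finset.mem_coe.2 (Finset.mem_image_of_mem (crd I) (Finset.mem_univ i)))

theorem span_cone (τ : Finset R) {t : Ideal R} (hτ : Ideal.span (τ : Set R) = t) [DecidableEq
    (MvPolynomial (Fin N) R ⧸ I)] :
    Ideal.span (((τ ×ˢ Finset.univ).image fun z : R × Fin N =>
      algebraMap R (MvPolynomial (Fin N) R ⧸ I) z.1 * crd I z.2 :
        Finset (MvPolynomial (Fin N) R ⧸ I)) : Set (MvPolynomial (Fin N) R ⧸ I)) =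
      coneIdeal I t := by
  rw [coneIdeal, ← hτ, Ideal.map_span, Ideal.span_mul_span']
  congr 1
  ext z
  rw [Finset.coe_image, Set.mem_mul]
  constructor
  · rintro ⟨⟨a, i⟩, ha, rfl⟩
    rw [Finset.coe_product, Set.mem_prod] at ha
    exact ⟨_, ⟨a, ha.1, rfl⟩, _, ⟨i, rfl⟩, rfl⟩
  · rintro ⟨_, ⟨a, ha, rfl⟩, _, ⟨i, rfl⟩, rfl⟩
    exact ⟨⟨a, i⟩, by rw [Finset.coe_product]; exact ⟨ha, by simp⟩, rfl⟩

end Proj

/-- **(e), one field** -/
theorem sum_proj {K M : Type} [Field K] [Field M] [NumberField M] [Algebra K M] {Λ : Finset ℕ}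
    (hΛ : ∀ l ∈ Λ, 2 ≤ l) {R R₂ : Type} [CommRing R] [Algebra K R] [CommRing R₂] [Algebra K R₂]
    (j : R →ₐ[K] R₂) {t₂ : Ideal R₂} (h : SUM K M R₂ Λ t₂)
    (hR : Algebra.FiniteType K R) {t : Ideal R} (ht : t.FG) (hs : t₂ ≤ (t.map j).radical)
    {N : ℕ} (I : Ideal (MvPolynomial (Fin N) R)) [I.IsPrime] (hI : Homog I)
    (hpos : ∃ i, MvPolynomial.X i ∉ I)
    (hdense : ∀ f : MvPolynomial (Fin N) R, f ∉ I → ∃ x : Fin N → R₂,
      (∀ g ∈ I, MvPolynomial.eval₂ (j : R →+* R₂) x g = 0) ∧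
        MvPolynomial.eval₂ (j : R →+* R₂) x f ≠ 0) :
    SUM K M (MvPolynomial (Fin N) R ⧸ I) Λ (coneIdeal I t) := by
  classical
  obtain ⟨G, τ, J, hG, hτ, hp⟩ := pull hΛ j h hR ht hs
  obtain ⟨J1, h1⟩ := exists_scaled (M := M) hΛ N
  refine ⟨_, _, max J J1, adjoin_cone I G hG, span_cone I τ hτ, fun f hf => ?_⟩
  obtain ⟨f, rfl⟩ := Ideal.Quotient.mk_surjective f
  obtain ⟨i0, hi0⟩ := hpos
  have hfI : f ∉ I := fun h0 => hf (Ideal.Quotient.eq_zero_iff_mem.2 h0)
  obtain ⟨x, hx0, hx1⟩ := hdense (f * MvPolynomial.X i0) (fun h0 =>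
    (Ideal.IsPrime.mem_or_mem inferInstance h0).elim hfI hi0)
  obtain ⟨φ, hφ, hφp⟩ := hp (max J J1) (le_max_left _ _) _ hx1
  rw [MvPolynomial.eval₂_mul, MvPolynomial.eval₂_X, map_mul] at hφ
  let φj : R →+* M := (φ : R₂ →+* M).comp (j : R →+* R₂)
  have hev : ∀ g : MvPolynomial (Fin N) R, φ (MvPolynomial.eval₂ (j : R →+* R₂) x g) =
      MvPolynomial.eval₂ φj (fun i => φ (x i)) g := fun g =>
    MvPolynomial.hom_eval₂ g (j : R →+* R₂) (φ : R₂ →+* M) x
  obtain ⟨s, hs0, hsf, hsp⟩ := h1 (max J J1) (le_max_right _ _) R φj (fun i => φ (x i)) f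
    (fun h0 => right_ne_zero_of_mul hφ (congrFun h0 i0))
    (by rw [← hev]; exact left_ne_zero_of_mul hφ)
  have hker : ∀ g ∈ I, MvPolynomial.aevalTower (φ.comp j) (fun i => s * φ (x i)) g = 0 := by
    intro g hg
    exact eval₂_smul_zero hI φj (fun i => φ (x i)) (fun g hg => by
      rw [← hev, hx0 g hg, map_zero]) s g hg
  refine ⟨Ideal.Quotient.liftₐ I (MvPolynomial.aevalTower (φ.comp j) fun i => s * φ (x i)) hker,
    ?_, fun p hpB => ?_⟩
  · exact hsf
  · obtain ⟨hg, z, hz, hz1⟩ := hφp p hpB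
    obtain ⟨hi, i, hi1⟩ := hsp p hpB
    have hval1 : ∀ r : R, Ideal.Quotient.liftₐ I (MvPolynomial.aevalTower (φ.comp j)
        fun i => s * φ (x i)) hker (algebraMap R (MvPolynomial (Fin N) R ⧸ I) r) =
        φ (j r) := fun r => MvPolynomial.aevalTower_C _ _ r
    have hval2 : ∀ i, Ideal.Quotient.liftₐ I (MvPolynomial.aevalTower (φ.comp j)
        fun i => s * φ (x i)) hker (crd I i) = s * φ (x i) := fun i =>
      MvPolynomial.aevalTower_X _ _ i
    constructor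
    · intro g hg'
      rcases Finset.mem_union.1 hg' with h2 | h2
      · obtain ⟨r, hr, rfl⟩ := Finset.mem_image.1 h2
        rw [hval1]
        exact hg r hr
      · obtain ⟨k, -, rfl⟩ := Finset.mem_image.1 h2
        rw [hval2]
        exact hi k
    · refine ⟨algebraMap R (MvPolynomial (Fin N) R ⧸ I) z * crd I i,
        Finset.mem_image.2 ⟨(z, i), Finset.mem_product.2 ⟨hz, Finset.mem_univ i⟩, rfl⟩, ?_⟩
      rw [map_mul, map_mul, hval1, hval2, hz1, hi1, one_mul]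

/-- **(e)** projective step: the points of the cone over a projective `R`-scheme with values in `R₂`
are dense -/
theorem su_proj {K : Type} [Field K] [NumberField K] {R R₂ : Type} [CommRing R] [Algebra K R]
    [CommRing R₂] [Algebra K R₂] (j : R →ₐ[K] R₂) {t₂ : Ideal R₂} (h : SU K R₂ t₂)
    (hR : Algebra.FiniteType K R) {t : Ideal R} (ht : t.FG) (hs : t₂ ≤ (t.map j).radical)
    {N : ℕ} (I : Ideal (MvPolynomial (Fin N) R)) [I.IsPrime] (hI : Homog I)
    (hpos : ∃ i, MvPolynomial.X i ∉ I)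
    (hdense : ∀ f : MvPolynomial (Fin N) R, f ∉ I → ∃ x : Fin N → R₂,
      (∀ g ∈ I, MvPolynomial.eval₂ (j : R →+* R₂) x g = 0) ∧
        MvPolynomial.eval₂ (j : R →+* R₂) x f ≠ 0) :
    SU K (MvPolynomial (Fin N) R ⧸ I) (coneIdeal I t) := by
  intro Λ hΛ M0 _ _ _
  obtain ⟨M, i1, i2, i3, i4, i5, hM⟩ := h Λ hΛ M0
  exact ⟨M, i1, i2, i3, i4, i5,
    sum_proj (fun l hl => (hΛ l hl).two_le) j hM hR ht hs I hI hpos hdense⟩

end Pool.Agent.Helper92.TW
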