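import Pool.Agent.Helper65.TW.Defs
import Pool.Agent.Helper92.TW.Core

/-!
# TOWERS: finitely many elements are integral at the sieve points, pulling back along a homomorphism
-/

set_option autoImplicit false

namespace Pool.Agent.Helper92.TW

open NumberField Pool.Agent.Helper4.CB
open Pool.Agent.Helper65.CL (Bad)
open Pool.Agent.Helper69.CB (vl)
open Pool.Agent.Helper65.TW

theorem bad_of_le {M : Type} [Field M] [NumberField M] {Λ : Finset ℕ} {J J' : ℕ} (h : J ≤ J')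
    {p : Pl M} (hp : Bad Λ J' p) : Bad Λ J p := by
  obtain ⟨l, hl, h1⟩ := hp
  exact ⟨l, hl, h1.of_dvd (pow_dvd_pow l h)⟩

/-- an element of the algebra generated by `G` is integral where `G` is, `J` large -/
theorem int_of_adjoin {K M : Type} [Field K] [Field M] [NumberField M] [Algebra K M]
    {Λ : Finset ℕ} (hΛ : ∀ l ∈ Λ, 2 ≤ l) {R : Type} [CommRing R] [Algebra K R] (G : Set R)
    (hG : Algebra.adjoin K G = ⊤) (c : R) :
    ∃ J0 : ℕ, ∀ J, J0 ≤ J → ∀ φ : R →ₐ[K] M, ∀ p : Pl M, Bad Λ J p →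
      (∀ g ∈ G, vl p (φ g) ≤ 1) → vl p (φ c) ≤ 1 := by
  have hc : c ∈ Algebra.adjoin K G := by rw [hG]; exact Algebra.mem_top
  induction hc using Algebra.adjoin_induction with
  | mem x hx => exact ⟨0, fun J _ φ p _ h => h x hx⟩
  | algebraMap r =>
    obtain ⟨J0, hJ0⟩ := Pool.Agent.Helper56.CL.start M hΛ {algebraMap K M r} 0
    refine ⟨J0, fun J hJ φ p hp _ => ?_⟩
    rw [AlgHom.commutes]
    by_cases h0 : algebraMap K M r = 0
    · rw [h0, map_zero]; exact zero_le_one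
    · exact ((hJ0 J hJ p hp).2 _ (Finset.mem_singleton_self _) h0).le
  | add x y _ _ hx hy =>
    obtain ⟨J1, h1⟩ := hx
    obtain ⟨J2, h2⟩ := hy
    refine ⟨max J1 J2, fun J hJ φ p hp h => ?_⟩
    rw [map_add]
    exact (Valuation.map_add _ _ _).trans (max_le (h1 J ((le_max_left _ _).trans hJ) φ p hp h)
      (h2 J ((le_max_right _ _).trans hJ) φ p hp h))
  | mul x y _ _ hx hy =>
    obtain ⟨J1, h1⟩ := hx
    obtain ⟨J2, h2⟩ := hy
    refine ⟨max J1 J2, fun J hJ φ p hp h => ?_⟩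
    rw [map_mul, map_mul]
    exact mul_le_one' (h1 J ((le_max_left _ _).trans hJ) φ p hp h)
      (h2 J ((le_max_right _ _).trans hJ) φ p hp h)

/-- the same for finitely many elements -/
theorem int_of_adjoin_finset {K M : Type} [Field K] [Field M] [NumberField M] [Algebra K M]
    {Λ : Finset ℕ} (hΛ : ∀ l ∈ Λ, 2 ≤ l) {R : Type} [CommRing R] [Algebra K R] (G : Set R)
    (hG : Algebra.adjoin K G = ⊤) (C : Finset R) :
    ∃ J0 : ℕ, ∀ J, J0 ≤ J → ∀ φ : R →ₐ[K] M, ∀ p : Pl M, Bad Λ J p →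
      (∀ g ∈ G, vl p (φ g) ≤ 1) → ∀ c ∈ C, vl p (φ c) ≤ 1 := by
  classical
  choose J0 hJ0 using fun c : R => int_of_adjoin (K := K) (M := M) hΛ G hG c
  refine ⟨∑ c ∈ C, J0 c, fun J hJ φ p hp hg c hc => hJ0 c J ?_ φ p hp hg⟩
  exact (Finset.single_le_sum (f := J0) (fun _ _ => Nat.zero_le _) hc).trans hJ

/-- an integral combination with a unit value contains a unit -/
theorem exists_unit_of_sum {M : Type} [Field M] [NumberField M] (p : Pl M) {ι : Type}
    (s : Finset ι) (b x : ι → M) (hb : ∀ i ∈ s, vl p (b i) ≤ 1) (hx : ∀ i ∈ s, vl p (x i) ≤ 1)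
    (h : vl p (∑ i ∈ s, b i * x i) = 1) : ∃ i ∈ s, vl p (x i) = 1 := by
  by_contra hcon
  push Not at hcon
  have h1 : vl p (∑ i ∈ s, b i * x i) < 1 := by
    refine Valuation.map_sum_lt _ one_ne_zero fun i hi => ?_
    rw [map_mul]
    exact (mul_le_of_le_one_left' (hb i hi)).trans_lt (lt_of_le_of_ne (hx i hi) (hcon i hi))
  exact absurd h (ne_of_lt h1)

/-- **pull back**: the sieve points of `(R₂, t₂)` restricted to a finitely generated algebra `R` -/
theorem pull {K M : Type} [Field K] [Field M] [NumberField M] [Algebra K M] {Λ : Finset ℕ}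
    (hΛ : ∀ l ∈ Λ, 2 ≤ l) {R R₂ : Type} [CommRing R] [Algebra K R] [CommRing R₂] [Algebra K R₂]
    (j : R →ₐ[K] R₂) {t₂ : Ideal R₂} (h : SUM K M R₂ Λ t₂) (hR : Algebra.FiniteType K R)
    {t : Ideal R} (ht : t.FG) (hs : t₂ ≤ (t.map j).radical) :
    ∃ (G τ : Finset R) (J : ℕ), Algebra.adjoin K (G : Set R) = ⊤ ∧
      Ideal.span (τ : Set R) = t ∧ ∀ J', J ≤ J' → ∀ f : R₂, f ≠ 0 → ∃ φ : R₂ →ₐ[K] M, φ f ≠ 0 ∧
        ∀ p : Pl M, Bad Λ J' p → (∀ g ∈ G, vl p (φ (j g)) ≤ 1) ∧ ∃ x ∈ τ, vl p (φ (j x)) = 1 := by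
  classical
  obtain ⟨G₂, τ₂, J₂, hG₂, hτ₂, hpt⟩ := h
  obtain ⟨G, hG⟩ := hR.out
  obtain ⟨τ, hτ⟩ := ht
  -- powers of the elements of `τ₂` are combinations of the elements of `τ`
  have hcomb : ∀ x ∈ τ₂, ∃ (s : ℕ) (b : R → R₂), x ^ s = ∑ y ∈ τ, b y * j y := by
    intro x hx
    have hx2 : x ∈ (t.map j).radical := hs (by rw [← hτ₂]; exact Ideal.subset_span hx)
    obtain ⟨s, hs'⟩ := hx2
    refine ⟨s, ?_⟩
    rw [← hτ, Ideal.map_span] at hs'
    obtain ⟨c, hc⟩ := (Submodule.mem_span_image_finset_iff_exists_fun' R₂).1 hs'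
    exact ⟨c, hc.symm⟩
  choose s b hsb using hcomb
  obtain ⟨J3, h3⟩ := int_of_adjoin_finset (K := K) (M := M) hΛ (G₂ : Set R₂) hG₂
    (G.image j ∪ τ.image j ∪ (τ₂.attach.biUnion fun x => τ.image (b x.1 x.2)))
  refine ⟨G, τ, max J₂ J3, hG, hτ, fun J' hJ' f hf => ?_⟩
  obtain ⟨φ, hφ, hp⟩ := hpt f hf
  refine ⟨φ, hφ, fun p hpB => ?_⟩
  obtain ⟨hg, x, hx, hx1⟩ := hp p (bad_of_le ((le_max_left _ _).trans hJ') hpB)
  have h4 := h3 J' ((le_max_right _ _).trans hJ') φ p hpB (fun g hg' => hg g hg')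
  refine ⟨fun g hg' => h4 _ ?_, ?_⟩
  · exact Finset.mem_union_left _ (Finset.mem_union_left _ (Finset.mem_image_of_mem j hg'))
  · refine exists_unit_of_sum p τ (fun y => φ (b x hx y)) (fun y => φ (j y)) (fun y hy => ?_)
      (fun y hy => ?_) ?_
    · refine h4 _ (Finset.mem_union_right _ (Finset.mem_biUnion.2 ⟨⟨x, hx⟩,
        Finset.mem_attach _ _, Finset.mem_image_of_mem _ hy⟩))
    · exact h4 _ (Finset.mem_union_left _ (Finset.mem_union_right _
        (Finset.mem_image_of_mem j hy)))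
    · have h5 := congrArg (fun z => vl p (φ z)) (hsb x hx)
      simp only [map_pow, map_sum, map_mul] at h5
      rw [← h5, hx1, one_pow]

end Pool.Agent.Helper92.TW
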