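import Pool.Agent.Helper92.TW.Proj

/-!
# TOWERS, T9: the projective step in the form of the frames
-/

set_option autoImplicit false

namespace Pool.Agent.Helper92.TW

open NumberField Pool.Agent.Helper4.CB
open Pool.Agent.Helper65.CL (Bad)
open Pool.Agent.Helper69.CB (vl)
open Pool.Agent.Helper65.TW

theorem sum_proj_of {K M : Type} [Field K] [Field M] [NumberField M] [Algebra K M] {Λ : Finset ℕ}
    (hΛ : ∀ l ∈ Λ, 2 ≤ l) {R R₂ : Type} [CommRing R] [Algebra K R] [CommRing R₂] [Algebra K R₂]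
    (j : R →ₐ[K] R₂) {t₂ : Ideal R₂} (h : SUM K M R₂ Λ t₂)
    (hR : Algebra.FiniteType K R) {t : Ideal R} (ht : t.FG) (hs : t₂ ≤ (t.map j).radical)
    {N : ℕ} (I : Ideal (MvPolynomial (Fin N) R)) (hI : Homog I)
    (hdense : ∀ f : MvPolynomial (Fin N) R, f ∉ I → ∃ (x : Fin N → R₂) (i0 : Fin N),
      (∀ g ∈ I, MvPolynomial.eval₂ (j : R →+* R₂) x g = 0) ∧
        MvPolynomial.eval₂ (j : R →+* R₂) x f * x i0 ≠ 0) :
    SUM K M (MvPolynomial (Fin N) R ⧸ I) Λ (coneIdeal I t) := by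
  classical
  obtain ⟨G, τ, J, hG, hτ, hp⟩ := pull hΛ j h hR ht hs
  obtain ⟨J1, h1⟩ := exists_scaled (M := M) hΛ N
  refine ⟨_, _, max J J1, adjoin_cone I G hG, span_cone I τ hτ, fun f hf => ?_⟩
  obtain ⟨f, rfl⟩ := Ideal.Quotient.mk_surjective f
  have hfI : f ∉ I := fun h0 => hf (Ideal.Quotient.eq_zero_iff_mem.2 h0)
  obtain ⟨x, i0, hx0, hx1⟩ := hdense f hfI
  obtain ⟨φ, hφ, hφp⟩ := hp (max J J1) (le_max_left _ _) _ hx1
  rw [map_mul] at hφ
  let φj : R →+* M := (φ : R₂ →+* M).comp (j : R →+* R₂)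
  have hev : ∀ g : MvPolynomial (Fin N) R, φ (MvPolynomial.eval₂ (j : R →+* R₂) x g) =
      MvPolynomial.eval₂ φj (fun i => φ (x i)) g := fun g =>
    MvPolynomial.hom_eval₂ g (j : R →+* R₂) (φ : R₂ →+* M) x
  obtain ⟨s, hs0, hsf, hsp⟩ := h1 (max J J1) (le_max_right _ _) R φj (fun i => φ (x i)) f
    (fun h0 => right_ne_zero_of_mul hφ (congrFun h0 i0))
    (by rw [← hev]; exact left_ne_zero_of_mul hφ)
  have hker : ∀ g ∈ I, MvPolynomial.aevalTower (φ.comp j) (fun i => s * φ (x i)) g = 0 := by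
    intro g hg
    exact eval₂_smul_zero hI φj (fun i => φ (x i)) (fun g hg => by
      rw [← hev, hx0 g hg, map_zero]) s g hg
  refine ⟨Ideal.Quotient.liftₐ I (MvPolynomial.aevalTower (φ.comp j) fun i => s * φ (x i)) hker,
    ?_, fun p hpB => ?_⟩
  · exact hsf
  · obtain ⟨hg, z, hz, hz1⟩ := hφp p hpB
    obtain ⟨hi, i, hi1⟩ := hsp p hpB
    have hval1 : ∀ r : R, Ideal.Quotient.liftₐ I (MvPolynomial.aevalTower (φ.comp j)
        fun i => s * φ (x i)) hker (algebraMap R (MvPolynomial (Fin N) R ⧸ I) r) =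
        φ (j r) := fun r => MvPolynomial.aevalTower_C _ _ r
    have hval2 : ∀ i, Ideal.Quotient.liftₐ I (MvPolynomial.aevalTower (φ.comp j)
        fun i => s * φ (x i)) hker (crd I i) = s * φ (x i) := fun i =>
      MvPolynomial.aevalTower_X _ _ i
    constructor
    · intro g hg'
      rcases Finset.mem_union.1 hg' with h2 | h2
      · obtain ⟨r, hr, rfl⟩ := Finset.mem_image.1 h2
        rw [hval1]
        exact hg r hr
      · obtain ⟨k, -, rfl⟩ := Finset.mem_image.1 h2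
        rw [hval2]
        exact hi k
    · refine ⟨algebraMap R (MvPolynomial (Fin N) R ⧸ I) z * crd I i,
        Finset.mem_image.2 ⟨(z, i), Finset.mem_product.2 ⟨hz, Finset.mem_univ i⟩, rfl⟩, ?_⟩
      rw [map_mul, map_mul, hval1, hval2, hz1, hi1, one_mul]

/-- **T9** projective schemes with many sections -/
theorem su_proj' {K M R S : Type} [Field K] [Field M] [NumberField M] [Algebra K M] [CommRing R]
    [Algebra K R] [Algebra.FiniteType K R] [CommRing S] [IsDomain S] [Algebra K S] [Algebra R S]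
    [IsScalarTower K R S] {Λ : Finset ℕ} (hΛ : ∀ l ∈ Λ, l.Prime) {tS : Ideal S}
    (h : SUM K M S Λ tS) (t : Ideal R) (s : ℕ) (ht : tS ^ s ≤ t.map (algebraMap R S)) {N : ℕ}
    (I : Ideal (MvPolynomial (Fin N) R))
    (hI : ∀ f ∈ I, ∀ d : ℕ, MvPolynomial.homogeneousComponent d f ∈ I)
    (hψ : ∀ f : MvPolynomial (Fin N) R ⧸ I, f ≠ 0 →
      ∃ ψ : (MvPolynomial (Fin N) R ⧸ I) →ₐ[R] S, ψ f ≠ 0 ∧
        ∃ k, ψ (Ideal.Quotient.mk I (MvPolynomial.X k)) ≠ 0) :
    SUM K M (MvPolynomial (Fin N) R ⧸ I) Λ (t.map (algebraMap R (MvPolynomial (Fin N) R ⧸ I)) *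
      Ideal.span (Set.range fun k => Ideal.Quotient.mk I (MvPolynomial.X k))) := by
  have hN : IsNoetherianRing R := Algebra.FiniteType.isNoetherianRing K R
  have hev : ∀ (ψ : (MvPolynomial (Fin N) R ⧸ I) →ₐ[R] S) (g : MvPolynomial (Fin N) R),
      MvPolynomial.eval₂ ((IsScalarTower.toAlgHom K R S : R →ₐ[K] S) : R →+* S)
        (fun k => ψ (Ideal.Quotient.mk I (MvPolynomial.X k))) g = ψ (Ideal.Quotient.mk I g) := by
    intro ψ g
    have h1 : (ψ.comp (Ideal.Quotient.mkₐ R I)) g = MvPolynomial.aeval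
        (fun k => ψ (Ideal.Quotient.mk I (MvPolynomial.X k))) g := by
      rw [MvPolynomial.aeval_unique (ψ.comp (Ideal.Quotient.mkₐ R I))]
      rfl
    exact h1.symm
  refine sum_proj_of (fun l hl => (hΛ l hl).two_le) (IsScalarTower.toAlgHom K R S) h
    inferInstance (IsNoetherian.noetherian t) ?_ I hI (fun f hf => ?_)
  · intro x hx
    exact ⟨s, ht (Ideal.pow_mem_pow hx s)⟩
  · obtain ⟨ψ, h1, k, h2⟩ := hψ (Ideal.Quotient.mk I f)
      (fun h0 => hf (Ideal.Quotient.eq_zero_iff_mem.1 h0))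
    refine ⟨fun k => ψ (Ideal.Quotient.mk I (MvPolynomial.X k)), k, fun g hg => ?_, ?_⟩
    · rw [hev, Ideal.Quotient.eq_zero_iff_mem.2 hg, map_zero]
    · rw [hev]
      exact mul_ne_zero h1 h2

end Pool.Agent.Helper92.TW
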